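import Pool.Agent.H96.AKS.Conv

/-!
Weight-monodromy in families (MP_d037d4_ag): over all `p`-adic fields of large residue
characteristic, and for strictly semistable models over all `p`-adic fields of large ramification
index.
-/

namespace Pool.Agent.Results.MP_d037d4_ag.AxKochen

open CategoryTheory CategoryTheory.Limits AlgebraicGeometry Pool.AKS

/-- Let `f : X ⟶ S` be flat and proper, `S` a scheme of finite type over `ℤ`.  There are integers
`B > 0` and `e` such that the following holds for every local field `K` of characteristic `0`, with
ring of integers `O`, maximal ideal `m` and residue characteristic `p`, and every point `s` of `S`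
with values in `K` whose fibre `X_s` is smooth.  If `p` does not divide `B`, or if `p ∈ m ^ e` and
`s` extends to a point of `S` with values in `O` whose fibre is strictly semistable over `O`, then
* all the `H^i` of `X_s` satisfy weight-monodromy;
* there are a finite field `k` of characteristic `p` and a point `s'` of `S` with values in the field
  of Laurent series over `k`, with smooth fibre, such that for all `i` the `H^i` of the fibres at `s`
  and `s'` are isomorphic, up to powers of the Frobenius maps and a multiple of the monodromy
  operator. -/
theorem result {Ω : Type} [Field Ω] [CharZero Ω] [IsAlgClosed Ω] (T : Theory Ω) (hT : HyodoKato T)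
    {X S : Scheme.{0}} (f : X ⟶ S) [Flat f] [IsProper f] (g : S ⟶ Spec (CommRingCat.of ℤ))
    [CompactSpace S] [LocallyOfFiniteType g] :
    ∃ B e : ℕ, 0 < B ∧ ∀ O, LF O → CharZero O → ∀ p : ℕ, p.Prime → (p : O) ∈ mx O →
      ∀ s : Spec (Fr O) ⟶ S, Sm (fib f s) →
        (¬ p ∣ B ∨ (p : O) ∈ mx O ^ e ∧ SemistableAt f s) →
        (∀ i : ℕ, (T.H O (fib f s) i).WM i) ∧ Twinned T f p s :=
  main T hT f g

end Pool.Agent.Results.MP_d037d4_ag.AxKochen
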