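import Pool.Agent.H27.ND.Conv

/-!
Weight-monodromy for the fibres of a family near a semistable degeneration whose strata satisfy
weight-monodromy (MP_d037d4_ag).
-/

namespace Pool.Agent.Results.MP_d037d4_ag.NearDegenerations

open Pool.ND

/-- In a strictly semistable degeneration assume that weight-monodromy holds

* for `H^j(z)`, for all strata `z` (connected components of intersections of `m z` components of the
  special fibre) and all `j` with `i ≤ j + m z ≤ i + 2`,
* or for the `i`-th cohomology group of the fibre at one point of the punctured disc.

Then there is a finite set `B` of rational numbers such that weight-monodromy holds for the `i`-th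
cohomology group of the fibre at every point `s` of the punctured disc with `val s` not in `B`; in
particular at all points close enough to the centre. -/
theorem result {q : ℕ} (hq : 1 < q) {Ω : Type} [Field Ω] [CharZero Ω] [IsAlgClosed Ω] {i : ℕ}
    (D : Degeneration q Ω i)
    (h : (∀ (z : D.Z) (j : ℕ), i ≤ j + D.m z → j + D.m z ≤ i + 2 →
        WM q (D.H z j).F (D.H z j).N j) ∨
      ∃ s : D.P, WM (D.q' s) (D.fib s).F (D.fib s).N i) :
    ∃ B : Finset ℚ, ∀ s : D.P, D.val s ∉ B → WM (D.q' s) (D.fib s).F (D.fib s).N i :=
  main D hq h

end Pool.Agent.Results.MP_d037d4_ag.NearDegenerations
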