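import Mathlib
import Pool.Agent.H36.NQ.Main

/-!
Weight-monodromy for smooth zero loci in quotients `V // G`, `G` a product of general linear groups,
for which `V // T` is a smooth projective toric variety (`T` the maximal torus of `G`), for instance
for the smooth complete intersections in products of Grassmannians.
-/

namespace Pool.Agent.Results.MP_d037d4_ag.NonabelianQuotients

open Pool.H36.NQ

/-- **Theorem.**  Let `O` be the ring of integers of a `p`-adic field `K`, let the product `G` of
groups `GL (k j)`, as a group of block diagonal matrices, with its torus `T` of diagonal matrices act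
on the affine space `V` over `K`, and let `θ` be a character of `G` such that the quotient of the
semistable points by `T` is a smooth projective toric variety (`Good`).  Let `s` be a system of `c`
equations, homogeneous for `T` (`Semi`), which is stable under `G`, transversal, with free action of
`G` (`Nice`), and a limit of systems which define smooth complete intersections of smooth
hypersurfaces in the toric variety (`hl`).  Let the quotient `X` of the zero locus by `G` be proper,
and let `X ⟶ X'` be a surjective morphism to a smooth proper scheme.  Then weight-monodromy holds for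
the cohomology of `X'` in every degree. -/
theorem result {O K Ω : Type} [CommRing O] [IsDomain O] [IsDiscreteValuationRing O]
    [IsAdicComplete (IsLocalRing.maximalIdeal O) O] [Finite (IsLocalRing.ResidueField O)]
    [CharZero O] [Field K] [Algebra O K] [IsFractionRing O K] [Field Ω] [CharZero Ω]
    [IsAlgClosed Ω] (q : ℕ) (hq : q = Nat.card (IsLocalRing.ResidueField O)) (H : Sm K → Gr Ω)
    (G : Geometry K) (hH : IsTheory q H) (hF : Facts q H (ball O K)) (r n c : ℕ) (V : Rep K r n)
    (hV : V.Good) (d : Fin c → Fin r → ℤ) (s : Sys K c n) (hs : V.Semi d s) (hn : V.Nice s)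
    (hl : ∀ e, ∃ s', V.Semi d s' ∧ V.Smooth s' ∧ Near (ball O K e) s s')
    (hc : ∑ j, V.k j ^ 2 + c ≤ n) (X X' : Sm K) (hX : IsQuot X s V.GSt V.GEq) (hp : X.Proper)
    (hd : X.Dim (n - (∑ j, V.k j ^ 2 + c))) (hp' : X'.Proper) (hg : X.Onto X') (i : ℕ) :
    (H X').WM q i :=
  main (hq ▸ Finite.one_lt_card) G hH hF V hV d s hs hn hl hc X X' hX hp hd hp' hg i

end Pool.Agent.Results.MP_d037d4_ag.NonabelianQuotients
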