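import Pool.Agent.H27.PB.Conv

/-!
# Weight-monodromy from the Rosati involution and the Hodge index theorem

Let `Y` be a smooth projective variety over a `p`-adic field with a projective strictly semistable
model, and let `Z^{(a+1)}` be the disjoint union of the `(a+1)`-fold intersections of the
components of the special fibre. The `E_1`-page of Mokrane's weight spectral sequence for the
Hyodo-Kato cohomology of `Y` (or of its `l`-adic analogue) is built from `V = ⊕ H^*(Z^{(a+1)})`
with the operators of `Datum`; hard Lefschetz for `Y` is the second half of `SemistableDatum`.

Theorem. Let `psi` commute with all the operators (the Frobenius, normalised), and let `alpha` be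
a scalar. Suppose that for all `a ≥ 1` and `b ≥ 0` one of the following holds for the primitive
cohomology `P^c(Z^{(a+1)})`, `c = δ - a - b`:
* the generalised `alpha`-eigenspace of `psi` on it has dimension at most one (or `box` is
  semisimple at the eigenvalue `0` on it);
* the restriction maps in degree `c` belong to a finite-dimensional `ℚ`-algebra with a positive
  involution, the involution being `lam ∘ gys` up to integers. This holds for `c = 0` (the
  degrees of the strata) and for `c = 1` (the Rosati involution of the Picard varieties of the
  strata, by Weil's positivity theorem);
* up to the kernel of `box` the generalised `alpha`-eigenspace of `psi` on it is spanned by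
  classes with a rational anisotropic intersection matrix, on which `box` acts rationally. For
  `c = 2` and divisor classes the first condition is the Hodge index theorem.

Then the weight-monodromy property holds for the `alpha`-part of the cohomology of `Y`.
-/

namespace Pool.Agent.Results.MP_d037d4_ag.PositiveBox

open Pool.Agent.H27.PB

theorem result {F V : Type} [Field F] [CharZero F] [AddCommGroup V] [Module F V]
    [FiniteDimensional F V] (D : Datum V) (hD : SemistableDatum F D) (psi : V → V)
    (hpsi : Commutes F D psi) (alpha : F)
    (h : ∀ a b : ℕ, 1 ≤ a → Tame F D (Eig psi alpha) a b ∨ Rosati F D (a + b) ∨
      HodgeIndex F D (Eig psi alpha) a b) :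
    WeightMonodromy F D (Eig psi alpha) :=
  main D hD psi hpsi alpha h

end Pool.Agent.Results.MP_d037d4_ag.PositiveBox
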